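import Mathlib
import Pool.Agent.H68.GR.Fin
import Pool.Graph.R_seed8.H357R2.SI.PairFinal

set_option autoImplicit false
set_option linter.unusedVariables false

/-! The second moment of the number of primes in windows of length `O(log N)`. -/

namespace Pool.Agent.H68.GS
open Finset
open Pool.Agent.H68.GR

/-- the number of primes in `(y, y + H]` -/
def pw (y H : ℕ) : ℕ := ((Ioc y (y + H)).filter Nat.Prime).card

lemma pw_sum (y H : ℕ) : (pw y H : ℝ) = ∑ h ∈ Icc 1 H, (if (y + h).Prime then (1 : ℝ) else 0) := by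
  unfold pw
  rw [card_filter]
  push_cast
  symm
  apply sum_nbij' (fun h => y + h) (fun m => m - y)
  · intro h hh
    rw [mem_Icc] at hh
    rw [mem_Ioc]
    omega
  · intro m hm
    rw [mem_Ioc] at hm
    rw [mem_Icc]
    omega
  · intro h _
    simp
  · intro m hm
    rw [mem_Ioc] at hm
    omega
  · intro h _
    rfl

lemma pw_le (y H : ℕ) : pw y H ≤ H := by
  unfold pw
  refine (card_filter_le _ _).trans ?_
  simp

/-- the pairs of primes `n`, `n + d` up to `u` -/
def prs (u d : ℕ) : ℕ := ((Ioc 0 u).filter (fun n => n.Prime ∧ (n + d).Prime)).card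

lemma pair_count (u K H h h' : ℕ) (hu : K + H ≤ u) (h1 : h ∈ Icc 1 H) (hh : h ≤ h') :
    ∑ y ∈ Icc 1 K, (if (y + h).Prime then (1 : ℝ) else 0) * (if (y + h').Prime then (1 : ℝ) else 0) ≤ prs u (h' - h) := by
  unfold prs
  rw [card_filter]
  push_cast
  have e : ∀ y : ℕ, (if (y + h).Prime then (1 : ℝ) else 0) * (if (y + h').Prime then (1 : ℝ) else 0) =
      if ((y + h).Prime ∧ (y + h + (h' - h)).Prime) then (1 : ℝ) else 0 := by
    intro y
    have : y + h + (h' - h) = y + h' := by omega
    rw [this, ite_and]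
    split_ifs <;> simp
  rw [sum_congr rfl (fun y _ => e y)]
  rw [← sum_image (s := Icc 1 K) (g := fun y => y + h) (f := fun n => if (n.Prime ∧ (n + (h' - h)).Prime) then (1 : ℝ) else 0)
    (fun a _ b _ hab => by simpa using hab)]
  apply sum_le_sum_of_subset_of_nonneg
  · intro n hn
    rw [mem_image] at hn
    obtain ⟨y, hy, rfl⟩ := hn
    rw [mem_Icc] at hy h1
    rw [mem_Ioc]
    omega
  · intro n _ _
    split_ifs <;> norm_num

lemma prs_zero (u : ℕ) : prs u 0 = Nat.primeCounting u := by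
  unfold prs
  rw [Nat.primeCounting, Nat.primeCounting', Nat.count_eq_card_filter_range]
  congr 1
  ext n
  simp only [mem_filter, mem_Ioc, mem_range, add_zero, and_self]
  constructor
  · rintro ⟨h1, h2⟩; exact ⟨by omega, h2⟩
  · rintro ⟨h1, h2⟩; exact ⟨⟨h2.pos, by omega⟩, h2⟩

/-- the second moment in terms of pairs -/
lemma second_pairs (u K H : ℕ) (hu : K + H ≤ u) :
    ∑ y ∈ Icc 1 K, (pw y H : ℝ) ^ 2 ≤ 2 * H * (Nat.primeCounting u + ∑ d ∈ Icc 1 H, (prs u d : ℝ)) := by
  have h1 : ∀ y, (pw y H : ℝ) ^ 2 = ∑ h ∈ Icc 1 H, ∑ h' ∈ Icc 1 H,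
      (if (y + h).Prime then (1 : ℝ) else 0) * (if (y + h').Prime then (1 : ℝ) else 0) := by
    intro y
    rw [pow_two, pw_sum, sum_mul_sum]
  rw [sum_congr rfl (fun y _ => h1 y), sum_comm]
  have h2 : ∀ h ∈ Icc 1 H, ∑ y ∈ Icc 1 K, ∑ h' ∈ Icc 1 H,
      (if (y + h).Prime then (1 : ℝ) else 0) * (if (y + h').Prime then (1 : ℝ) else 0) ≤
      2 * (Nat.primeCounting u + ∑ d ∈ Icc 1 H, (prs u d : ℝ)) := by
    intro h hh
    rw [sum_comm]
    have hhH := mem_Icc.1 hh
    -- split into h' < h and h ≤ h'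
    rw [← sum_filter_add_sum_filter_not (Icc 1 H) (fun h' => h ≤ h')]
    have h3 : ∑ h' ∈ (Icc 1 H).filter (fun h' => h ≤ h'), ∑ y ∈ Icc 1 K,
        (if (y + h).Prime then (1 : ℝ) else 0) * (if (y + h').Prime then (1 : ℝ) else 0) ≤
        Nat.primeCounting u + ∑ d ∈ Icc 1 H, (prs u d : ℝ) := by
      calc _ ≤ ∑ h' ∈ (Icc 1 H).filter (fun h' => h ≤ h'), (prs u (h' - h) : ℝ) :=
            sum_le_sum fun h' hh' => pair_count u K H h h' hu hh (mem_filter.1 hh').2
        _ = ∑ d ∈ ((Icc 1 H).filter (fun h' => h ≤ h')).image (fun h' => h' - h), (prs u d : ℝ) := by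
            rw [sum_image]
            intro a ha b hb hab
            have h4 := (mem_filter.1 ha).2
            have h5 := (mem_filter.1 hb).2
            simp only at hab
            omega
        _ ≤ ∑ d ∈ insert 0 (Icc 1 H), (prs u d : ℝ) := by
            apply sum_le_sum_of_subset_of_nonneg
            · intro d hd
              rw [mem_image] at hd
              obtain ⟨h', hh', rfl⟩ := hd
              rw [mem_filter, mem_Icc] at hh'
              rw [mem_insert, mem_Icc]
              omega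
            · intro d _ _
              exact Nat.cast_nonneg _
        _ = _ := by
            rw [sum_insert (by simp), prs_zero]
    have h4 : ∑ h' ∈ (Icc 1 H).filter (fun h' => ¬ h ≤ h'), ∑ y ∈ Icc 1 K,
        (if (y + h).Prime then (1 : ℝ) else 0) * (if (y + h').Prime then (1 : ℝ) else 0) ≤
        Nat.primeCounting u + ∑ d ∈ Icc 1 H, (prs u d : ℝ) := by
      calc _ ≤ ∑ h' ∈ (Icc 1 H).filter (fun h' => ¬ h ≤ h'), (prs u (h - h') : ℝ) := by
            apply sum_le_sum
            intro h' hh'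
            rw [mem_filter] at hh'
            refine le_trans (le_of_eq ?_) (pair_count u K H h' h hu hh'.1 (by omega))
            exact sum_congr rfl fun y _ => mul_comm _ _
        _ = ∑ d ∈ ((Icc 1 H).filter (fun h' => ¬ h ≤ h')).image (fun h' => h - h'), (prs u d : ℝ) := by
            rw [sum_image]
            intro a ha b hb hab
            have h4 := (mem_filter.1 ha).2
            have h5 := (mem_filter.1 hb).2
            simp only at hab
            omega
        _ ≤ ∑ d ∈ Icc 1 H, (prs u d : ℝ) := by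
            apply sum_le_sum_of_subset_of_nonneg
            · intro d hd
              rw [mem_image] at hd
              obtain ⟨h', hh', rfl⟩ := hd
              rw [mem_filter, mem_Icc] at hh'
              rw [mem_Icc]
              omega
            · intro d _ _
              exact Nat.cast_nonneg _
        _ ≤ _ := by
            have : (0 : ℝ) ≤ Nat.primeCounting u := Nat.cast_nonneg _
            linarith
    linarith
  refine (sum_le_sum h2).trans (le_of_eq ?_)
  rw [sum_const, Nat.card_Icc, Nat.add_sub_cancel, nsmul_eq_mul]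
  ring

/-- **The second moment.** -/
theorem second (A : ℕ) (Λ : ℝ) (hΛ : 0 < Λ) : ∃ C : ℝ, 0 < C ∧ ∃ N0 : ℕ, ∀ N : ℕ, N0 ≤ N → ∀ H : ℕ, (H : ℝ) ≤ Λ * Real.log N →
    ∑ y ∈ Icc 1 (A * N), (pw y H : ℝ) ^ 2 ≤ C * N := by
  obtain ⟨C1, hC1, u0, hpair⟩ := Pool.Agent.H357R2.SI.pair_sieve
  obtain ⟨C2, hC2, hsg⟩ := Pool.Agent.H357R2.SI.sum_sg_sq
  have hlog4 : 0 < Real.log 4 := Real.log_pos (by norm_num)
  obtain ⟨x0, hx0⟩ := Filter.eventually_atTop.1 (Chebyshev.eventually_primeCounting_le (ε := 1) one_pos)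
  obtain ⟨x1, hx1⟩ := Filter.eventually_atTop.1 ((Real.isLittleO_log_id_atTop.bound (c := 1 / (Λ + 1)) (by positivity)))
  set C : ℝ := 2 * Λ * ((Real.log 4 + 1) * (A + 1) + Λ * (C1 * C2) * (A + 1)) with hC
  refine ⟨C, by positivity, max (max u0 ⌈x0⌉₊) (max ⌈x1⌉₊ 3), fun N hN H hH => ?_⟩
  have hn1 : u0 ≤ N := (le_trans (le_max_left _ _) (le_max_left _ _)).trans hN
  have hn2 : ⌈x0⌉₊ ≤ N := (le_trans (le_max_right _ _) (le_max_left _ _)).trans hN
  have hn3 : ⌈x1⌉₊ ≤ N := (le_trans (le_max_left _ _) (le_max_right _ _)).trans hN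
  have hn4 : 3 ≤ N := (le_trans (le_max_right _ _) (le_max_right _ _)).trans hN
  have hNr : (3 : ℝ) ≤ N := by exact_mod_cast hn4
  have hl1 : 1 ≤ Real.log N := by
    rw [Real.le_log_iff_exp_le (by linarith)]
    have := Real.exp_one_lt_d9
    linarith
  have hHN : H ≤ N := by
    have h1 := hx1 N ((Nat.le_ceil x1).trans (by exact_mod_cast hn3))
    simp only [id, Real.norm_eq_abs] at h1
    rw [abs_of_nonneg (by linarith), abs_of_nonneg (by linarith)] at h1
    have h2 : (H : ℝ) ≤ N := by
      refine hH.trans ?_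
      rw [div_mul_eq_mul_div, one_mul, le_div_iff₀ (by positivity)] at h1
      nlinarith
    exact_mod_cast h2
  set u := (A + 1) * N with hu
  have huN : N ≤ u := Nat.le_mul_of_pos_left _ (by omega)
  have hur : (u : ℝ) = (A + 1) * N := by rw [hu]; push_cast; ring
  have hu0 : (0 : ℝ) < u := by rw [hur]; positivity
  have hL : Real.log N ≤ Real.log u := Real.log_le_log (by linarith) (by exact_mod_cast huN)
  have hL1 : 1 ≤ Real.log u := hl1.trans hL
  have h1 := second_pairs u (A * N) H (by rw [hu]; nlinarith)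
  refine h1.trans ?_
  have h2 : (Nat.primeCounting u : ℝ) ≤ (Real.log 4 + 1) * u / Real.log u := by
    have := hx0 u ((Nat.le_ceil x0).trans (by exact_mod_cast hn2.trans huN))
    rwa [Nat.floor_natCast] at this
  have h3 : ∑ d ∈ Icc 1 H, (prs u d : ℝ) ≤ C1 * C2 * H * u / Real.log u ^ 2 := by
    calc _ ≤ ∑ d ∈ Icc 1 H, C1 * Pool.Agent.H357R2.SI.sg d ^ 2 * u / Real.log u ^ 2 := by
          apply sum_le_sum
          intro d hd
          have h4 := hpair d 0 u (mem_Icc.1 hd).1 (hn1.trans huN)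
          rw [zero_add] at h4
          exact h4
      _ = (∑ d ∈ Icc 1 H, Pool.Agent.H357R2.SI.sg d ^ 2) * (C1 * u / Real.log u ^ 2) := by
          rw [sum_mul]
          apply sum_congr rfl
          intro d _
          ring
      _ ≤ (C2 * H) * (C1 * u / Real.log u ^ 2) := mul_le_mul_of_nonneg_right (hsg H) (by positivity)
      _ = _ := by ring
  have hHL : (H : ℝ) ≤ Λ * Real.log u := hH.trans (mul_le_mul_of_nonneg_left hL hΛ.le)
  have hH0 : (0 : ℝ) ≤ H := Nat.cast_nonneg _
  have hLu : 0 < Real.log u := by linarith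
  have h4 : (H : ℝ) / Real.log u ≤ Λ := by rwa [div_le_iff₀ hLu]
  have h40 : 0 ≤ (H : ℝ) / Real.log u := by positivity
  calc 2 * (H : ℝ) * (Nat.primeCounting u + ∑ d ∈ Icc 1 H, (prs u d : ℝ)) ≤
        2 * H * ((Real.log 4 + 1) * u / Real.log u + C1 * C2 * H * u / Real.log u ^ 2) :=
        mul_le_mul_of_nonneg_left (add_le_add h2 h3) (by positivity)
    _ = 2 * (H / Real.log u) * ((Real.log 4 + 1) * u + (H / Real.log u) * (C1 * C2) * u) := by
        field_simp
    _ ≤ 2 * Λ * ((Real.log 4 + 1) * u + Λ * (C1 * C2) * u) := by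
        gcongr
    _ = C * N := by rw [hC, hur]; ring

end Pool.Agent.H68.GS
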