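import Mathlib
import Pool.Agent.H68.GS.Mom

set_option autoImplicit false
set_option linter.unusedVariables false
set_option linter.unusedSectionVars false

/-! Windows with more, or fewer, primes than the mean, at the edges of a graph. -/

namespace Pool.Agent.H68.GS
open Finset
open Pool.Agent.H68.GR

variable {V : Type*} [Fintype V] [DecidableEq V] {ι : Type*} [DecidableEq ι] [Fintype ι]

/-- `m` is at least `l` (sign `+`) resp. at most `l` (sign `-`) -/
def Cond (l : ℝ) (s : Bool) (m : ℕ) : Prop := if s = true then l ≤ m else (m : ℝ) ≤ l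

open Classical in
/-- the indicator function of the condition -/
noncomputable def ind (l : ℝ) (s : Bool) (N n : ℕ) : ℝ := if Cond l s (pw n ⌊l * Real.log N⌋₊) then 1 else 0

lemma ind_nonneg (l : ℝ) (s : Bool) (N n : ℕ) : 0 ≤ ind l s N n := by unfold ind; split_ifs <;> norm_num

lemma ind_le (l : ℝ) (s : Bool) (N n : ℕ) : ind l s N n ≤ 1 := by unfold ind; split_ifs <;> norm_num

lemma wa_pw (H n : ℕ) (t : ℝ) : wa (fun n => t * onP n) H n = pw n H * t / H := by
  unfold wa
  have h1 : ∑ h ∈ Icc 1 H, t * onP (n + h) = t * pw n H := by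
    rw [← mul_sum, pw_sum]
    rfl
  rw [h1]
  ring

/-- the first moment of the number of primes in a window at one edge -/
lemma first (A : ℕ) (l ε : ℝ) (hl : 0 < l) (hε : 0 < ε) : ∃ N0 : ℕ, ∀ N : ℕ, N0 ≤ N → ∀ (D : Edges V ι) (c : ι → ℕ), ∀ e ∈ D.E,
    ∀ w : (V → ℕ) → ℝ, (∀ x, 0 ≤ w x) → (∀ x, w x ≤ 1) →
    (∀ x ∈ Icc 1 N, ∀ y ∈ Icc 1 N, D.a e * x + D.b e * y + c e ≤ A * N) →
    SplitC 1 (fun x => (w x : ℂ)) (D.u e) (D.v e) →
    |(∑ x ∈ Box V N, w x * pw (D.L c e x) ⌊l * Real.log N⌋₊) * (Real.log N / ⌊l * Real.log N⌋₊) - ∑ x ∈ Box V N, w x| ≤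
      ε * (Box V N).card := by
  obtain ⟨K0, hK0, N1, h1⟩ := main_prime (V := V) (ι := ι) 1 A ε hε
  have ht : Filter.Tendsto (fun N : ℕ => l * Real.log N) Filter.atTop Filter.atTop :=
    (Real.tendsto_log_atTop.comp tendsto_natCast_atTop_atTop).const_mul_atTop hl
  obtain ⟨N2, h2⟩ := Filter.eventually_atTop.1 (ht.eventually_ge_atTop (K0 : ℝ))
  have ho : ∀ᶠ N : ℕ in Filter.atTop, l * Real.log N ≤ N := by
    have h3 := (Real.isLittleO_log_id_atTop.bound (c := 1 / l) (by positivity))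
    have h4 := tendsto_natCast_atTop_atTop.eventually h3
    filter_upwards [h4, Filter.eventually_ge_atTop 1] with N h5 h6
    simp only [id, Real.norm_eq_abs] at h5
    have h7 : (1 : ℝ) ≤ N := by exact_mod_cast h6
    rw [abs_of_nonneg (Real.log_nonneg h7), abs_of_nonneg (by linarith), div_mul_eq_mul_div, one_mul, le_div_iff₀ hl] at h5
    linarith
  obtain ⟨N3, h3⟩ := Filter.eventually_atTop.1 ho
  refine ⟨max N1 (max N2 N3), fun N hN D c e he w hw0 hw1 hK hS => ?_⟩
  have hn1 : N1 ≤ N := (le_max_left _ _).trans hN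
  have hn2 : N2 ≤ N := ((le_max_left _ _).trans (le_max_right _ _)).trans hN
  have hn3 : N3 ≤ N := ((le_max_right _ _).trans (le_max_right _ _)).trans hN
  let D1 : Edges V ι :=
    { u := D.u
      v := D.v
      a := D.a
      b := D.b
      E := {e}
      ne := fun e' he' => by rw [mem_singleton] at he'; rw [he']; exact D.ne e he
      ha := fun e' he' => by rw [mem_singleton] at he'; rw [he']; exact D.ha e he
      hb := fun e' he' => by rw [mem_singleton] at he'; rw [he']; exact D.hb e he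
      simple := fun e1 he1 e2 he2 hne => by
        rw [mem_singleton] at he1 he2
        exact absurd (he1.trans he2.symm) hne }
  have h4 := h1 N hn1 (fun _ => ⌊l * Real.log N⌋₊) (fun _ => Nat.le_floor (h2 N hn2)) (fun _ => by
    have := Nat.floor_le_floor (h3 N hn3)
    rwa [Nat.floor_natCast] at this) D1 c (fun x => (w x : ℂ)) (fun x => by
      rw [Complex.norm_real, Real.norm_of_nonneg (hw0 x)]; exact hw1 x) ⟨fun e' he' x hx y hy => by
        have : e' = e := mem_singleton.1 he'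
        rw [this]
        exact hK x hx y hy, fun e' he' => by
        have : e' = e := mem_singleton.1 he'
        rw [this]
        exact hS⟩ (by show ({e} : Finset ι).card ≤ 1; simp)
  have e1 : ∀ x, PR D1 c (fun n => Real.log N * onP n) (fun _ => ⌊l * Real.log N⌋₊) x =
      pw (D.L c e x) ⌊l * Real.log N⌋₊ * Real.log N / ⌊l * Real.log N⌋₊ := by
    intro x
    unfold PR
    have : D1.E = {e} := rfl
    rw [this, prod_singleton, wa_pw]
    rfl
  have e2 : ∑ x ∈ Box V N, (w x : ℂ) * ((PR D1 c (fun n => Real.log N * onP n) (fun _ => ⌊l * Real.log N⌋₊) x : ℝ) : ℂ) -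
      ∑ x ∈ Box V N, (w x : ℂ) = (((∑ x ∈ Box V N, w x * pw (D.L c e x) ⌊l * Real.log N⌋₊) * (Real.log N / ⌊l * Real.log N⌋₊) -
      ∑ x ∈ Box V N, w x : ℝ) : ℂ) := by
    push_cast
    congr 1
    rw [sum_mul]
    apply sum_congr rfl
    intro x _
    rw [e1]
    push_cast
    ring
  rw [e2, Complex.norm_real, Real.norm_eq_abs] at h4
  exact h4

/-- the second moment at one edge -/
lemma second_edge (A : ℕ) (l : ℝ) (hl : 0 < l) : ∃ C : ℝ, 0 < C ∧ ∃ N0 : ℕ, ∀ N : ℕ, N0 ≤ N → ∀ (D : Edges V ι) (c : ι → ℕ), ∀ e ∈ D.E,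
    (∀ x ∈ Icc 1 N, ∀ y ∈ Icc 1 N, D.a e * x + D.b e * y + c e ≤ A * N) →
    ∑ x ∈ Box V N, (pw (D.L c e x) ⌊l * Real.log N⌋₊ : ℝ) ^ 2 ≤ C * (Box V N).card := by
  obtain ⟨C, hC, N0, h⟩ := second A l hl
  refine ⟨C, hC, max N0 1, fun N hN D c e he hK => ?_⟩
  have hn0 : N0 ≤ N := (le_max_left _ _).trans hN
  have hn1 : 1 ≤ N := (le_max_right _ _).trans hN
  have hNr : (1 : ℝ) ≤ N := by exact_mod_cast hn1
  have h1 := h N hn0 ⌊l * Real.log N⌋₊ (Nat.floor_le (mul_nonneg hl.le (Real.log_nonneg hNr)))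
  have h2 := sum_lf N (A * N) (D.a e) (D.b e) (c e) (D.u e) (D.v e) (D.ne e he) (D.ha e he) hK
    (fun n => (pw n ⌊l * Real.log N⌋₊ : ℝ) ^ 2) (fun n => by positivity)
  have h3 : (N : ℝ) * ∑ x ∈ Box V N, (pw (D.L c e x) ⌊l * Real.log N⌋₊ : ℝ) ^ 2 ≤ N * (C * (Box V N).card) := by
    refine h2.trans ?_
    calc ((Box V N).card : ℝ) * ∑ n ∈ Icc 1 (A * N), (pw n ⌊l * Real.log N⌋₊ : ℝ) ^ 2 ≤ (Box V N).card * (C * N) :=
          mul_le_mul_of_nonneg_left h1 (Nat.cast_nonneg _)
      _ = _ := by ring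
  exact le_of_mul_le_mul_left h3 (by linarith)

/-- **One edge.** -/
lemma edge_pos (A : ℕ) (l : ℝ) (hl : 0 < l) (s : Bool) (δ : ℝ) (hδ : 0 < δ) : ∃ κ : ℝ, 0 < κ ∧ ∃ N0 : ℕ, ∀ N : ℕ, N0 ≤ N →
    ∀ (D : Edges V ι) (c : ι → ℕ), ∀ e ∈ D.E,
    ∀ w : (V → ℕ) → ℝ, (∀ x, 0 ≤ w x) → (∀ x, w x ≤ 1) →
    (∀ x ∈ Icc 1 N, ∀ y ∈ Icc 1 N, D.a e * x + D.b e * y + c e ≤ A * N) →
    SplitC 1 (fun x => (w x : ℂ)) (D.u e) (D.v e) → δ * (Box V N).card ≤ ∑ x ∈ Box V N, w x →
    κ * (Box V N).card ≤ ∑ x ∈ Box V N, w x * ind l s N (D.L c e x) := by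
  classical
  cases s with
  | true =>
    set m := ⌈l⌉₊ with hm
    have hm1 : 1 ≤ m := Nat.one_le_ceil_iff.2 hl
    have hm2 : (m : ℝ) - 1 < l := by
      have := Nat.ceil_lt_add_one hl.le
      linarith
    have hm0 : (0 : ℝ) ≤ (m : ℝ) - 1 := by
      have : (1 : ℝ) ≤ m := by exact_mod_cast hm1
      linarith
    set l' : ℝ := (l + (m - 1)) / 2 with hl'
    have hl'1 : (m : ℝ) - 1 < l' := by rw [hl']; linarith
    have hl'2 : l' < l := by rw [hl']; linarith
    have hl'0 : 0 < l' := by rw [hl']; linarith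
    set η : ℝ := (l' - (m - 1)) * δ / 2 with hη
    have hη0 : 0 < η := by
      have : 0 < l' - (m - 1) := by linarith
      positivity
    set ε : ℝ := min δ (η / l') with hε
    have hε0 : 0 < ε := lt_min hδ (by positivity)
    have hε1 : ε ≤ δ := min_le_left _ _
    have hε2 : l' * ε ≤ η := by
      have : ε ≤ η / l' := min_le_right _ _
      rw [le_div_iff₀ hl'0] at this
      linarith
    obtain ⟨N1, h1⟩ := first (V := V) (ι := ι) A l ε hl hε0
    obtain ⟨C, hC, N2, h2⟩ := second_edge (V := V) (ι := ι) A l hl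
    have ht : Filter.Tendsto (fun N : ℕ => Real.log N) Filter.atTop Filter.atTop :=
      Real.tendsto_log_atTop.comp tendsto_natCast_atTop_atTop
    obtain ⟨N3, h3⟩ := Filter.eventually_atTop.1 (ht.eventually_ge_atTop (max 1 (max (1 / (l - l')) (1 / l))))
    refine ⟨η ^ 2 / C, by positivity, max N1 (max N2 (max N3 1)), fun N hN D c e he w hw0 hw1 hK hS hM => ?_⟩
    have hn1 : N1 ≤ N := (le_max_left _ _).trans hN
    have hn2 : N2 ≤ N := ((le_max_left _ _).trans (le_max_right _ _)).trans hN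
    have hn3 : N3 ≤ N := (((le_max_left _ _).trans (le_max_right _ _)).trans (le_max_right _ _)).trans hN
    have hn4 : 1 ≤ N := (((le_max_right _ _).trans (le_max_right _ _)).trans (le_max_right _ _)).trans hN
    have hl1 := (le_max_left _ _).trans (h3 N hn3)
    have hl2 := ((le_max_left _ _).trans (le_max_right _ _)).trans (h3 N hn3)
    have hl3 := ((le_max_right _ _).trans (le_max_right _ _)).trans (h3 N hn3)
    have hL0 : 0 < Real.log N := by linarith
    set H := ⌊l * Real.log N⌋₊ with hH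
    set Q : ℝ := ((Box V N).card : ℝ) with hQ
    have hQ0 : 0 < Q := by
      rw [hQ, card_Box]
      have : 0 < N ^ Fintype.card V := pow_pos (by omega) _
      exact_mod_cast this
    have hHlow : l' ≤ (H : ℝ) / Real.log N := by
      rw [le_div_iff₀ hL0]
      have h4 := Nat.lt_floor_add_one (l * Real.log N)
      rw [← hH] at h4
      have h5 : 1 ≤ (l - l') * Real.log N := by
        have : 0 < l - l' := by linarith
        rw [div_le_iff₀ this] at hl2
        linarith
      linarith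
    have hHpos : (0 : ℝ) < H := by
      have : 0 < (H : ℝ) / Real.log N := lt_of_lt_of_le hl'0 hHlow
      by_contra hcon
      have h6 : (H : ℝ) = 0 := le_antisymm (not_lt.1 hcon) (Nat.cast_nonneg _)
      rw [h6, zero_div] at this
      exact lt_irrefl _ this
    have hf := h1 N hn1 D c e he w hw0 hw1 hK hS
    have hs := h2 N hn2 D c e he hK
    rw [← hH] at hf hs
    rw [← hQ] at hf hs
    set M := ∑ x ∈ Box V N, w x with hMd
    set P := ∑ x ∈ Box V N, w x * pw (D.L c e x) H with hP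
    set B := ∑ x ∈ Box V N, w x * ind l true N (D.L c e x) with hB
    have hP0 : 0 ≤ P := sum_nonneg fun x _ => mul_nonneg (hw0 x) (Nat.cast_nonneg _)
    -- the first moment from below
    have h5 : l' * (M - ε * Q) ≤ P := by
      have h6 := (abs_le.1 hf).1
      have h7 : M - ε * Q ≤ P * (Real.log N / H) := by linarith
      have h8 : 0 ≤ M - ε * Q := by
        have := mul_le_mul_of_nonneg_right hε1 hQ0.le
        linarith
      calc l' * (M - ε * Q) ≤ (H / Real.log N) * (M - ε * Q) := mul_le_mul_of_nonneg_right hHlow h8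
        _ ≤ (H / Real.log N) * (P * (Real.log N / H)) := mul_le_mul_of_nonneg_left h7 (by positivity)
        _ = P := by field_simp
    -- pointwise
    have h6 : P ≤ (m - 1) * M + ∑ x ∈ Box V N, (w x * ind l true N (D.L c e x)) * pw (D.L c e x) H := by
      rw [hP, hMd, mul_sum, ← sum_add_distrib]
      apply sum_le_sum
      intro x _
      unfold ind Cond
      rw [← hH]
      simp only [if_true]
      by_cases h7 : l ≤ (pw (D.L c e x) H : ℝ)
      · rw [if_pos h7, mul_one]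
        have := mul_nonneg hm0 (hw0 x)
        linarith
      · rw [if_neg h7, mul_zero, zero_mul, add_zero]
        have h8 : (pw (D.L c e x) H : ℝ) ≤ m - 1 := by
          have h9 : ¬ m ≤ pw (D.L c e x) H := by
            rw [hm, Nat.ceil_le]; exact h7
          have h10 : pw (D.L c e x) H + 1 ≤ m := by omega
          have : ((pw (D.L c e x) H : ℕ) : ℝ) + 1 ≤ m := by exact_mod_cast h10
          linarith
        calc w x * pw (D.L c e x) H ≤ w x * (m - 1) := mul_le_mul_of_nonneg_left h8 (hw0 x)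
          _ = _ := mul_comm _ _
    set R := ∑ x ∈ Box V N, (w x * ind l true N (D.L c e x)) * pw (D.L c e x) H with hR
    have h7 : R ^ 2 ≤ B * (C * Q) := by
      have h8 := sum_mul_sq_le_sq_mul_sq (Box V N) (fun x => w x * ind l true N (D.L c e x)) (fun x => (pw (D.L c e x) H : ℝ))
      refine h8.trans ?_
      apply mul_le_mul _ hs (sum_nonneg fun x _ => by positivity) (sum_nonneg fun x _ => mul_nonneg (hw0 x) (ind_nonneg _ _ _ _))
      apply sum_le_sum
      intro x _
      have h9 : 0 ≤ w x * ind l true N (D.L c e x) := mul_nonneg (hw0 x) (ind_nonneg _ _ _ _)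
      have h10 : w x * ind l true N (D.L c e x) ≤ 1 := mul_le_one₀ (hw1 x) (ind_nonneg _ _ _ _) (ind_le _ _ _ _)
      nlinarith
    have h8 : η * Q ≤ R := by
      have h9 : (l' - (m - 1)) * (δ * Q) ≤ (l' - (m - 1)) * M := mul_le_mul_of_nonneg_left hM (by linarith)
      have h10 : l' * ε * Q ≤ η * Q := mul_le_mul_of_nonneg_right hε2 hQ0.le
      have h11 : (l' - (m - 1)) * (δ * Q) = 2 * (η * Q) := by rw [hη]; ring
      nlinarith
    have h9 : (η * Q) ^ 2 ≤ B * (C * Q) := by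
      refine le_trans ?_ h7
      apply pow_le_pow_left₀ (by positivity) h8
    have h10 : η ^ 2 * Q ≤ B * C := by
      have : η ^ 2 * Q * Q ≤ B * C * Q := by nlinarith
      exact le_of_mul_le_mul_right this hQ0
    rw [div_mul_eq_mul_div, div_le_iff₀ hC]
    exact h10
  | false =>
    set m := ⌊l⌋₊ with hm
    have hm1 : l < m + 1 := Nat.lt_floor_add_one l
    have hm0 : (0 : ℝ) < m + 1 := by positivity
    set θ : ℝ := 1 - l / (m + 1) with hθ
    have hθ0 : 0 < θ := by
      rw [hθ, sub_pos, div_lt_one hm0]; exact hm1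
    set ε : ℝ := θ * δ / 2 with hε
    have hε0 : 0 < ε := by positivity
    obtain ⟨N1, h1⟩ := first (V := V) (ι := ι) A l ε hl hε0
    have ht : Filter.Tendsto (fun N : ℕ => Real.log N) Filter.atTop Filter.atTop :=
      Real.tendsto_log_atTop.comp tendsto_natCast_atTop_atTop
    obtain ⟨N3, h3⟩ := Filter.eventually_atTop.1 (ht.eventually_ge_atTop (max 1 (1 / l)))
    refine ⟨θ * δ / 2, by positivity, max N1 (max N3 1), fun N hN D c e he w hw0 hw1 hK hS hM => ?_⟩
    have hn1 : N1 ≤ N := (le_max_left _ _).trans hN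
    have hn3 : N3 ≤ N := ((le_max_left _ _).trans (le_max_right _ _)).trans hN
    have hn4 : 1 ≤ N := ((le_max_right _ _).trans (le_max_right _ _)).trans hN
    have hl1 := (le_max_left _ _).trans (h3 N hn3)
    have hl2 := (le_max_right _ _).trans (h3 N hn3)
    have hL0 : 0 < Real.log N := by linarith
    set H := ⌊l * Real.log N⌋₊ with hH
    set Q : ℝ := ((Box V N).card : ℝ) with hQ
    have hQ0 : 0 < Q := by
      rw [hQ, card_Box]
      have : 0 < N ^ Fintype.card V := pow_pos (by omega) _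
      exact_mod_cast this
    have hHup : (H : ℝ) / Real.log N ≤ l := by
      rw [div_le_iff₀ hL0]
      exact Nat.floor_le (by positivity)
    have hHpos : (0 : ℝ) < H := by
      have h4 : 1 ≤ H := by
        rw [hH, Nat.one_le_floor_iff]
        rw [div_le_iff₀ hl] at hl2
        linarith
      exact_mod_cast h4
    have hf := h1 N hn1 D c e he w hw0 hw1 hK hS
    rw [← hH] at hf
    rw [← hQ] at hf
    set M := ∑ x ∈ Box V N, w x with hMd
    set P := ∑ x ∈ Box V N, w x * pw (D.L c e x) H with hP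
    set B := ∑ x ∈ Box V N, w x * ind l false N (D.L c e x) with hB
    have hM0 : 0 ≤ M := sum_nonneg fun x _ => hw0 x
    have h5 : P ≤ l * (M + ε * Q) := by
      have h6 := (abs_le.1 hf).2
      have h7 : P * (Real.log N / H) ≤ M + ε * Q := by linarith
      have h8 : 0 ≤ M + ε * Q := by positivity
      calc P = (H / Real.log N) * (P * (Real.log N / H)) := by field_simp
        _ ≤ (H / Real.log N) * (M + ε * Q) := mul_le_mul_of_nonneg_left h7 (by positivity)
        _ ≤ l * (M + ε * Q) := mul_le_mul_of_nonneg_right hHup h8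
    have h6 : (m + 1) * (M - B) ≤ P := by
      rw [hP, hMd, hB, ← sum_sub_distrib, mul_sum]
      apply sum_le_sum
      intro x _
      unfold ind Cond
      rw [← hH]
      simp only [Bool.false_eq_true, if_false]
      by_cases h7 : (pw (D.L c e x) H : ℝ) ≤ l
      · rw [if_pos h7, mul_one, sub_self, mul_zero]
        exact mul_nonneg (hw0 x) (Nat.cast_nonneg _)
      · rw [if_neg h7, mul_zero, sub_zero]
        have h8 : (m : ℝ) + 1 ≤ pw (D.L c e x) H := by
          have h9 : m < pw (D.L c e x) H := by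
            rw [hm, Nat.floor_lt hl.le]; exact not_le.1 h7
          exact_mod_cast h9
        calc ((m : ℝ) + 1) * w x ≤ pw (D.L c e x) H * w x := mul_le_mul_of_nonneg_right h8 (hw0 x)
          _ = _ := mul_comm _ _
    have h7 : (m + 1) * (M - B) ≤ l * (M + ε * Q) := h6.trans h5
    have h8 : M - B ≤ l / (m + 1) * (M + ε * Q) := by
      rw [div_mul_eq_mul_div, le_div_iff₀ hm0]
      linarith
    have h9 : l / (m + 1) = 1 - θ := by rw [hθ]; ring
    rw [h9] at h8
    have h10 : θ * (δ * Q) ≤ θ * M := mul_le_mul_of_nonneg_left hM hθ0.le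
    have h11 : (1 - θ) * (ε * Q) ≤ ε * Q := by
      have : 0 ≤ θ * (ε * Q) := mul_nonneg hθ0.le (mul_nonneg hε0.le hQ0.le)
      linarith
    have h12 : ε * Q = θ * (δ * Q) / 2 := by rw [hε]; ring
    have h13 : θ * δ / 2 * Q = θ * (δ * Q) / 2 := by ring
    rw [h13]
    nlinarith

/-- uniformity over a finite set -/
lemma unif {α : Type*} [Fintype α] [DecidableEq α] (P : α → ℝ → ℕ → Prop)
    (hmono : ∀ a c c' n n', 0 < c' → c' ≤ c → n ≤ n' → P a c n → P a c' n') (h : ∀ a, ∃ c : ℝ, 0 < c ∧ ∃ n, P a c n) :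
    ∃ c : ℝ, 0 < c ∧ ∃ n, ∀ a, P a c n := by
  have key : ∀ S : Finset α, ∃ c : ℝ, 0 < c ∧ ∃ n, ∀ a ∈ S, P a c n := by
    intro S
    induction S using Finset.induction_on with
    | empty => exact ⟨1, one_pos, 0, fun a ha => absurd ha (notMem_empty _)⟩
    | insert a S ha ih =>
      obtain ⟨c, hc, n, h1⟩ := ih
      obtain ⟨c', hc', n', h2⟩ := h a
      refine ⟨min c c', lt_min hc hc', max n n', fun b hb => ?_⟩
      rcases mem_insert.1 hb with rfl | hb
      · exact hmono _ _ _ _ _ (lt_min hc hc') (min_le_right _ _) (le_max_right _ _) h2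
      · exact hmono _ _ _ _ _ (lt_min hc hc') (min_le_left _ _) (le_max_left _ _) (h1 b hb)
  obtain ⟨c, hc, n, h1⟩ := key univ
  exact ⟨c, hc, n, fun a => h1 a (mem_univ a)⟩

/-- **All edges.** -/
theorem all_edges (A : ℕ) (l : ι → ℝ) (hl : ∀ e, 0 < l e) (s : ι → Bool) : ∀ k : ℕ, ∀ δ : ℝ, 0 < δ →
    ∃ κ : ℝ, 0 < κ ∧ ∃ N0 : ℕ, ∀ N : ℕ, N0 ≤ N → ∀ (D : Edges V ι) (c : ι → ℕ) (T : Finset ι), T ⊆ D.E → T.card = k →
    ∀ w : (V → ℕ) → ℝ, (∀ x, 0 ≤ w x) → (∀ x, w x ≤ 1) →
    (∀ e ∈ D.E, ∀ x ∈ Icc 1 N, ∀ y ∈ Icc 1 N, D.a e * x + D.b e * y + c e ≤ A * N) →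
    (∀ e ∈ D.E, SplitC 1 (fun x => (w x : ℂ)) (D.u e) (D.v e)) → δ * (Box V N).card ≤ ∑ x ∈ Box V N, w x →
    κ * (Box V N).card ≤ ∑ x ∈ Box V N, w x * ∏ e ∈ T, ind (l e) (s e) N (D.L c e x) := by
  intro k
  induction k with
  | zero =>
    intro δ hδ
    refine ⟨δ, hδ, 0, fun N _ D c T hT hk w hw0 hw1 hK hS hM => ?_⟩
    rw [card_eq_zero] at hk
    rw [hk]
    simpa using hM
  | succ k ih =>
    intro δ hδ
    obtain ⟨κ1, hκ1, N1, h1⟩ := ih δ hδ
    obtain ⟨κ, hκ, N2, h2⟩ := unif (fun (e : ι) (κ : ℝ) (N0 : ℕ) => ∀ N : ℕ, N0 ≤ N →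
      ∀ (D : Edges V ι) (c : ι → ℕ), e ∈ D.E →
      ∀ w : (V → ℕ) → ℝ, (∀ x, 0 ≤ w x) → (∀ x, w x ≤ 1) →
      (∀ x ∈ Icc 1 N, ∀ y ∈ Icc 1 N, D.a e * x + D.b e * y + c e ≤ A * N) →
      SplitC 1 (fun x => (w x : ℂ)) (D.u e) (D.v e) → κ1 * (Box V N).card ≤ ∑ x ∈ Box V N, w x →
      κ * (Box V N).card ≤ ∑ x ∈ Box V N, w x * ind (l e) (s e) N (D.L c e x)) (by
        intro e κ κ' n n' _ hκ hn h N hN D c he w hw0 hw1 hK hS hM
        exact (mul_le_mul_of_nonneg_right hκ (Nat.cast_nonneg _)).trans (h N (hn.trans hN) D c he w hw0 hw1 hK hS hM)) (by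
        intro e
        obtain ⟨κ, hκ, N0, h⟩ := edge_pos (V := V) (ι := ι) A (l e) (hl e) (s e) κ1 hκ1
        exact ⟨κ, hκ, N0, fun N hN D c he w hw0 hw1 hK hS hM => h N hN D c e he w hw0 hw1 hK hS hM⟩)
    refine ⟨κ, hκ, max N1 N2, fun N hN D c T hT hk w hw0 hw1 hK hS hM => ?_⟩
    have hn1 : N1 ≤ N := (le_max_left _ _).trans hN
    have hn2 : N2 ≤ N := (le_max_right _ _).trans hN
    obtain ⟨e0, T', he0, rfl, hk'⟩ := Finset.card_eq_succ.1 hk
    have he0E : e0 ∈ D.E := hT (mem_insert_self _ _)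
    have hT' : T' ⊆ D.E := fun e he => hT (mem_insert_of_mem he)
    have h3 := h1 N hn1 D c T' hT' hk' w hw0 hw1 hK hS hM
    set w1 : (V → ℕ) → ℝ := fun x => w x * ∏ e ∈ T', ind (l e) (s e) N (D.L c e x) with hw1d
    have hp0 : ∀ x, 0 ≤ ∏ e ∈ T', ind (l e) (s e) N (D.L c e x) := fun x => prod_nonneg fun e _ => ind_nonneg _ _ _ _
    have hp1 : ∀ x, ∏ e ∈ T', ind (l e) (s e) N (D.L c e x) ≤ 1 := fun x =>
      prod_le_one (fun e _ => ind_nonneg _ _ _ _) (fun e _ => ind_le _ _ _ _)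
    have hs1 : SplitC 1 (fun x => (w1 x : ℂ)) (D.u e0) (D.v e0) := by
      have h4 := split_prod (B := 1) one_pos T' (fun e x => ((ind (l e) (s e) N (D.L c e x) : ℝ) : ℂ))
        (fun e _ x => by
          rw [Complex.norm_real, Real.norm_of_nonneg (ind_nonneg _ _ _ _)]
          exact ind_le _ _ _ _)
        (fun e he => D.blind c (ind (l e) (s e) N) e0 he0E e (hT' he) (fun h => he0 (h ▸ he))) (hS e0 he0E)
      rw [one_pow, mul_one] at h4
      convert h4 using 2 with x
      simp only [hw1d]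
      push_cast
      rfl
    have h5 := h2 e0 N hn2 D c he0E w1 (fun x => mul_nonneg (hw0 x) (hp0 x)) (fun x => mul_le_one₀ (hw1 x) (hp0 x) (hp1 x))
      (hK e0 he0E) hs1 h3
    refine h5.trans (le_of_eq ?_)
    apply sum_congr rfl
    intro x _
    rw [prod_insert he0]
    simp only [hw1d]
    ring

end Pool.Agent.H68.GS
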